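import Pool.Agent.H600Z.GM.Defs

/-!
# Guessing models closed under given functions, and the covering lemma
-/

namespace Pool.Agent.H600Z.GM

open Cardinal Order

universe u

/-- One step of the closure. -/
def step (A : Set ZFSet.{u}) (F : ZFSet.{u} → ZFSet.{u} → Set ZFSet.{u}) (s : Set ZFSet.{u}) :
    Set ZFSet.{u} :=
  s ∪ ((⋃ ab : s × s, F ab.1.1 ab.2.1) ∩ A)

theorem step_card {A : Set ZFSet.{u}} {F : ZFSet.{u} → ZFSet.{u} → Set ZFSet.{u}}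
    {μ : Cardinal.{u + 1}} (hμ : ℵ₀ ≤ μ) (hF : ∀ a b, #(F a b) ≤ μ) {s : Set ZFSet.{u}}
    (hs : #s ≤ μ) : #(step A F s) ≤ μ := by
  unfold step
  refine (mk_union_le _ _).trans ?_
  refine add_le_of_le hμ hs ?_
  refine (mk_le_mk_of_subset Set.inter_subset_left).trans ?_
  refine (mk_iUnion_le_sum_mk).trans ?_
  refine (sum_le_sum _ (fun _ => μ) (fun ab => hF _ _)).trans ?_
  rw [sum_const', mk_prod, lift_id]
  refine (mul_le_mul' (mul_le_mul' hs hs) le_rfl).trans ?_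
  rw [mul_eq_self hμ, mul_eq_self hμ]

theorem isClub_closed {κ : Cardinal.{u}} (hκ : ℵ₀ ≤ κ) (A : Set ZFSet.{u})
    (F : ZFSet.{u} → ZFSet.{u} → Set ZFSet.{u})
    (hF : ∀ a b, #(F a b) ≤ lift.{u + 1} (succ κ)) :
    IsClub (succ (succ κ)) A
      {M | M ⊆ A ∧ #M ≤ lift.{u + 1} (succ κ) ∧ ∀ a ∈ M, ∀ b ∈ M, ∀ w ∈ F a b, w ∈ A → w ∈ M} := by
  set μ : Cardinal.{u + 1} := lift.{u + 1} (succ κ) with hμdef
  have hμ : ℵ₀ ≤ μ := by
    rw [hμdef, ← lift_aleph0.{u + 1, u}, lift_le]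
    exact hκ.trans (le_succ κ)
  have hl : lift.{u + 1} (succ (succ κ)) = succ μ := by rw [lift_succ]
  refine ⟨?_, ?_, ?_⟩
  · intro x hx
    rw [hl]
    exact ⟨hx.1, lt_succ_iff.2 hx.2.1⟩
  · intro x hxA hx
    rw [hl, lt_succ_iff] at hx
    let X : ℕ → Set ZFSet.{u} := fun n => (step A F)^[n] x
    have hXs : ∀ n, X (n + 1) = step A F (X n) := fun n => Function.iterate_succ_apply' _ _ _
    have hXc : ∀ n, #(X n) ≤ μ := by
      intro n
      induction n with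
      | zero => exact hx
      | succ n ih => rw [hXs]; exact step_card hμ hF ih
    have hXA : ∀ n, X n ⊆ A := by
      intro n
      induction n with
      | zero => exact hxA
      | succ n ih => rw [hXs]; exact Set.union_subset ih Set.inter_subset_right
    have hXm : Monotone X := monotone_nat_of_le_succ fun n => by
      rw [hXs]; exact Set.subset_union_left
    refine ⟨⋃ n, X n, ⟨Set.iUnion_subset hXA, ?_, ?_⟩, Set.subset_iUnion X 0⟩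
    · have h1 := mk_iUnion_le_sum_mk_lift (f := X)
      rw [lift_uzero] at h1
      refine h1.trans ?_
      refine (sum_le_sum _ (fun _ => μ) hXc).trans ?_
      rw [sum_const]
      simp only [mk_nat, lift_aleph0, lift_uzero]
      exact (mul_eq_right hμ hμ aleph0_ne_zero).le
    · intro a ha b hb w hw hwA
      obtain ⟨n, hn⟩ := Set.mem_iUnion.1 ha
      obtain ⟨m, hm⟩ := Set.mem_iUnion.1 hb
      refine Set.mem_iUnion.2 ⟨max n m + 1, ?_⟩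
      rw [hXs]
      refine Or.inr ⟨Set.mem_iUnion.2
        ⟨(⟨a, hXm (le_max_left n m) hn⟩, ⟨b, hXm (le_max_right n m) hm⟩), hw⟩, hwA⟩
  · intro D hD _ hch hc
    rw [hl, lt_succ_iff] at hc
    refine ⟨Set.sUnion_subset fun x hx => (hD hx).1, ?_, ?_⟩
    · rw [Set.sUnion_eq_iUnion]
      refine (mk_iUnion_le_sum_mk).trans ?_
      refine (sum_le_sum _ (fun _ => μ) (fun x => (hD x.2).2.1)).trans ?_
      rw [sum_const']
      refine (mul_le_mul' hc le_rfl).trans ?_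
      rw [mul_eq_self hμ]
    · rintro a ⟨x, hx, ha⟩ b ⟨y, hy, hb⟩ w hw hwA
      rcases hch.total hx hy with h | h
      · exact ⟨y, hy, (hD hy).2.2 a (h ha) b hb w hw hwA⟩
      · exact ⟨x, hx, (hD hx).2.2 a ha b (h hb) w hw hwA⟩

theorem H_of_subset {θ : Cardinal.{u}} {x y : ZFSet.{u}} (hx : x ∈ H θ) (h : y ⊆ x) :
    y ∈ H θ := by
  obtain ⟨t, ht, hxt, hc⟩ := hx
  exact ⟨t, ht, fun _ hw => hxt (h hw), hc⟩

theorem H_of_mem {θ : Cardinal.{u}} {x y : ZFSet.{u}} (hx : x ∈ H θ) (h : y ∈ x) :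
    y ∈ H θ := by
  obtain ⟨t, ht, hxt, hc⟩ := hx
  exact ⟨t, ht, ht y (hxt h), hc⟩

theorem H_sUnion {θ : Cardinal.{u}} {x : ZFSet.{u}} (hx : x ∈ H θ) : ZFSet.sUnion x ∈ H θ := by
  obtain ⟨t, ht, hxt, hc⟩ := hx
  refine ⟨t, ht, fun w hw => ?_, hc⟩
  obtain ⟨z, hz, hw⟩ := ZFSet.mem_sUnion.1 hw
  exact ht z (hxt hz) hw

/-- The range of a relation. -/
noncomputable def ran (f : ZFSet.{u}) : ZFSet.{u} :=
  (ZFSet.sUnion (ZFSet.sUnion f)).sep fun y => ∃ w, ZFSet.pair w y ∈ f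

theorem mem_ran {f y : ZFSet.{u}} : y ∈ ran f ↔ ∃ w, ZFSet.pair w y ∈ f := by
  unfold ran
  rw [ZFSet.mem_sep]
  refine ⟨fun h => h.2, fun h => ⟨?_, h⟩⟩
  obtain ⟨w, hw⟩ := h
  refine ZFSet.mem_sUnion.2 ⟨{w, y}, ZFSet.mem_sUnion.2 ⟨_, hw, ?_⟩, by simp⟩
  simp [ZFSet.pair]

theorem H_ran {θ : Cardinal.{u}} {x : ZFSet.{u}} (hx : x ∈ H θ) : ran x ∈ H θ :=
  H_of_subset (H_sUnion (H_sUnion hx)) ZFSet.sep_subset

theorem small_mem {κ : Cardinal.{u}} {M : Set ZFSet.{u}} (hM : SeqClosed κ M)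
    (hran : ∀ f ∈ M, ran f ∈ M) (x : ZFSet.{u}) (hx : ∀ w ∈ x, w ∈ M) (hc : x.card < κ) :
    x ∈ M := by
  have hcard : #(x.card.ord.toZFSet) = #x := by
    rw [ZFSet.cardinalMk_coe_sort, ZFSet.cardinalMk_coe_sort, Ordinal.card_toZFSet, card_ord]
  obtain ⟨g⟩ := Cardinal.eq.1 hcard
  let f : ZFSet.{u} := ZFSet.pairSep (fun a b => ∃ ha : a ∈ x.card.ord.toZFSet, (g ⟨a, ha⟩).1 = b)
    x.card.ord.toZFSet x
  have hf : ZFSet.IsFunc x.card.ord.toZFSet x f := by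
    refine ⟨fun w hw => ?_, fun a ha => ⟨(g ⟨a, ha⟩).1, ?_, ?_⟩⟩
    · obtain ⟨a, ha, b, hb, rfl, _⟩ := ZFSet.mem_pairSep.1 hw
      exact ZFSet.pair_mem_prod.2 ⟨ha, hb⟩
    · exact ZFSet.mem_pairSep.2 ⟨a, ha, _, (g ⟨a, ha⟩).2, rfl, ha, rfl⟩
    · intro b hb
      obtain ⟨a', _, b', _, he, ha', hg⟩ := ZFSet.mem_pairSep.1 hb
      obtain ⟨rfl, rfl⟩ := ZFSet.pair_inj.1 he
      exact hg.symm
  have hfM := hran f (hM _ (ord_lt_ord.2 hc) x f hx hf)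
  have : ran f = x := by
    ext y
    rw [mem_ran]
    constructor
    · rintro ⟨w, hw⟩
      exact (ZFSet.pair_mem_prod.1 (hf.1 hw)).2
    · intro hy
      refine ⟨(g.symm ⟨y, hy⟩).1, ZFSet.mem_pairSep.2 ⟨_, (g.symm ⟨y, hy⟩).2, y, hy, rfl,
        (g.symm ⟨y, hy⟩).2, ?_⟩⟩
      simp
  rwa [this] at hfM

/-- The union of the members of `a` of size at most `κ`. -/
noncomputable def su (κ : Cardinal.{u}) (a : ZFSet.{u}) : ZFSet.{u} :=
  ZFSet.sUnion (a.sep fun w : ZFSet.{u} => w.card ≤ κ)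

theorem H_su {θ κ : Cardinal.{u}} {x : ZFSet.{u}} (hx : x ∈ H θ) : su κ x ∈ H θ := by
  unfold su
  exact H_sUnion (H_of_subset hx ZFSet.sep_subset)

theorem mem_su {κ : Cardinal.{u}} {a y : ZFSet.{u}} :
    y ∈ su κ a ↔ ∃ w ∈ a, w.card ≤ κ ∧ y ∈ w := by
  unfold su
  rw [ZFSet.mem_sUnion]
  constructor
  · rintro ⟨z, hz, hy⟩
    rw [ZFSet.mem_sep] at hz
    exact ⟨z, hz.1, hz.2, hy⟩
  · rintro ⟨z, hz, hc, hy⟩
    exact ⟨z, by rw [ZFSet.mem_sep]; exact ⟨hz, hc⟩, hy⟩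

theorem card_su {κ : Cardinal.{u}} (hκ : ℵ₀ ≤ κ) {a : ZFSet.{u}} (ha : a.card ≤ κ) :
    (su κ a).card ≤ κ := by
  rw [← lift_le.{u + 1}, ← ZFSet.cardinalMk_coe_sort]
  set s := a.sep fun w : ZFSet.{u} => w.card ≤ κ with hs
  have hμ : ℵ₀ ≤ lift.{u + 1} κ := by
    rw [← lift_aleph0.{u + 1, u}, lift_le]; exact hκ
  have h1 : ((su κ a : ZFSet) : Set ZFSet) = ⋃ w : s, (w.1 : Set ZFSet) := by
    ext y
    rw [SetLike.mem_coe, mem_su, Set.mem_iUnion]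
    constructor
    · rintro ⟨z, hz, hc, hy⟩
      exact ⟨⟨z, by rw [hs, ZFSet.mem_sep]; exact ⟨hz, hc⟩⟩, hy⟩
    · rintro ⟨⟨z, hz⟩, hy⟩
      rw [hs, ZFSet.mem_sep] at hz
      exact ⟨z, hz.1, hz.2, hy⟩
  change #((su κ a : ZFSet) : Set ZFSet) ≤ _
  rw [h1]
  refine (mk_iUnion_le_sum_mk).trans ?_
  refine (sum_le_sum _ (fun _ => lift.{u + 1} κ) (fun w => ?_)).trans ?_
  · change #(w.1) ≤ _
    rw [ZFSet.cardinalMk_coe_sort, lift_le]
    exact (ZFSet.mem_sep.1 w.2).2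
  · rw [sum_const']
    have : #s ≤ lift.{u + 1} κ := by
      rw [ZFSet.cardinalMk_coe_sort, lift_le]
      exact (ZFSet.card_mono ZFSet.sep_subset).trans ha
    refine (mul_le_mul' this le_rfl).trans ?_
    rw [mul_eq_self hμ]

theorem mk_Iio_lt' {c : Cardinal.{u}} (i : c.ord.ToType) : #(Set.Iio i) < c := by
  have := Cardinal.mk_Iio_lt i (by simp)
  simpa using this

theorem mk_Iic_lt' {c : Cardinal.{u}} (hc : ℵ₀ ≤ c) (i : c.ord.ToType) : #(Set.Iic i) < c := by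
  rw [← Set.Iio_insert]
  refine mk_insert_le.trans_lt ?_
  exact add_lt_of_lt hc (mk_Iio_lt' i) (one_lt_aleph0.trans_le hc)

theorem card_range_le {ι : Type u} (f : ι → ZFSet.{u}) : (ZFSet.range f).card ≤ #ι := by
  have := ZFSet.lift_card_range_le (f := f)
  simpa using this

/-- Krueger's covering lemma for guessing models. -/
theorem covering {κ : Cardinal.{u}} (hκ : ℵ₀ ≤ κ) {M : Set ZFSet.{u}} (hg : Guessing κ M)
    (hsm : ∀ x : ZFSet.{u}, (∀ w ∈ x, w ∈ M) → x.card < κ → x ∈ M)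
    (hsu : ∀ a ∈ M, su κ a ∈ M)
    (hsub : ∀ e ∈ M, ∀ x : ZFSet.{u}, x.card ≤ κ → (∀ y ∈ M, y ∈ e → y ∈ x) → ∀ y ∈ e, y ∈ M)
    {z x : ZFSet.{u}} (hz : z.powerset ∈ M) (hxz : x ⊆ z) (hxM : ∀ w ∈ x, w ∈ M)
    (hc : x.card ≤ κ) : ∃ y ∈ M, y.card ≤ κ ∧ x ⊆ y := by
  classical
  by_contra hno
  have hK : #x ≤ #(ULift.{u + 1} κ.ord.ToType) := by
    rw [ZFSet.cardinalMk_coe_sort, mk_uLift, mk_ord_toType, lift_le]; exact hc
  obtain ⟨j⟩ := Cardinal.le_def _ _ |>.1 hK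
  let xa : κ.ord.ToType → ZFSet.{u} := fun α => x.sep fun w => ∃ hw : w ∈ x, (j ⟨w, hw⟩).down ≤ α
  have hxa_sub : ∀ α, xa α ⊆ x := fun α => ZFSet.sep_subset
  have hxa_card : ∀ α, (xa α).card < κ := by
    intro α
    rw [← lift_lt.{u, u + 1}, ← ZFSet.cardinalMk_coe_sort]
    refine lt_of_le_of_lt ?_ (lift_lt.{u, u + 1}.2 (mk_Iic_lt' hκ α))
    rw [← mk_uLift]
    refine mk_le_of_injective (f := fun w : xa α =>
      (ULift.up ⟨(j ⟨w.1, hxa_sub α w.2⟩).down, ?_⟩ : ULift.{u + 1} (Set.Iic α))) ?_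
    · obtain ⟨_, h⟩ := (ZFSet.mem_sep.1 w.2).2
      exact h
    · intro w w' h
      simp only [ULift.up.injEq, Subtype.mk.injEq] at h
      have := j.injective (ULift.ext _ _ h)
      exact Subtype.ext (by simpa using this)
  have hxa_M : ∀ α, xa α ∈ M := fun α => hsm _ (fun w hw => hxM w (hxa_sub α hw)) (hxa_card α)
  -- a small member of `M` contains only boundedly many `xa α`
  have hbd : ∀ a ∈ M, a.card ≤ κ → ∃ β, ∀ α, xa α ∈ a → α ≤ β := by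
    intro a ha hac
    by_contra hub
    push Not at hub
    refine hno ⟨su κ a, hsu a ha, card_su hκ hac, fun w hw => ?_⟩
    obtain ⟨α, hα, hlt⟩ := hub (j ⟨w, hw⟩).down
    exact mem_su.2 ⟨xa α, hα, (hxa_card α).le, ZFSet.mem_sep.2 ⟨hw, hw, hlt.le⟩⟩
  let d : ZFSet.{u} := ZFSet.range xa
  have hd : d.card ≤ κ := (card_range_le xa).trans (by simp)
  obtain ⟨e, heM, he⟩ := hg _ hz d (by
      intro w hw
      obtain ⟨α, rfl⟩ := ZFSet.mem_range.1 hw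
      exact ZFSet.mem_powerset.2 fun v hv => hxz (hxa_sub α hv)) (by
      intro a ha hac
      obtain ⟨β, hβ⟩ := hbd a ha hac
      refine hsm _ (fun w hw => ?_) ?_
      · obtain ⟨α, rfl⟩ := ZFSet.mem_range.1 (ZFSet.mem_inter.1 hw).1
        exact hxa_M α
      · refine lt_of_le_of_lt ?_ (mk_Iic_lt' hκ β)
        refine le_trans (ZFSet.card_mono ?_) (card_range_le fun α : Set.Iic β => xa α.1)
        intro w hw
        obtain ⟨hw1, hw2⟩ := ZFSet.mem_inter.1 hw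
        obtain ⟨α, rfl⟩ := ZFSet.mem_range.1 hw1
        exact ZFSet.mem_range.2 ⟨⟨α, hβ α hw2⟩, rfl⟩)
  have heS : ∀ y ∈ e, y ∈ M := hsub e heM d hd fun y hy hye => (he y hy).1 hye
  have hed : e ⊆ d := fun y hy => (he y (heS y hy)).1 hy
  obtain ⟨β, hβ⟩ := hbd e heM ((ZFSet.card_mono hed).trans hd)
  have : NoMaxOrder κ.ord.ToType := Cardinal.noMaxOrder hκ
  obtain ⟨α, hα⟩ := exists_gt β
  exact absurd (hβ α ((he _ (hxa_M α)).2 (ZFSet.mem_range_self α))) (not_le.2 hα)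

end Pool.Agent.H600Z.GM
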