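import Mathlib
import Pool.Agent.Helper292.ForceCH

/-!
# The guessing model principle, centered forcing and the tree property: definitions

Sets are the `ZFSet`s of Mathlib. Forcing is expressed in the language of
`Pool.Agent.Helper292.ForceCH`: a sentence is the set of the conditions which force it, and a
name for a subset of a ground model set `X` is a map `X → Set P`.
-/

namespace Pool.Agent.H600Z.GM

open Cardinal Order Pool.Agent.Helper292.ForceCH

universe u

/-- `H θ`: the sets contained in a transitive set of size `< θ`, that is, the sets whose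
transitive closure has size `< θ`. -/
def H (θ : Cardinal.{u}) : Set ZFSet.{u} :=
  {x | ∃ t : ZFSet.{u}, t.IsTransitive ∧ x ⊆ t ∧ t.card < θ}

/-- First order formulas of the language of set theory, with variables indexed by `ℕ`. -/
inductive Fml : Type
  | mem (i j : ℕ) : Fml
  | eq (i j : ℕ) : Fml
  | neg (φ : Fml) : Fml
  | conj (φ ψ : Fml) : Fml
  | all (i : ℕ) (φ : Fml) : Fml

/-- Satisfaction in the structure `(D, ∈)` under an assignment of the variables. -/
def Sat (D : Set ZFSet.{u}) : Fml → (ℕ → ZFSet.{u}) → Prop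
  | .mem i j, v => v i ∈ v j
  | .eq i j, v => v i = v j
  | .neg φ, v => ¬ Sat D φ v
  | .conj φ ψ, v => Sat D φ v ∧ Sat D ψ v
  | .all i φ, v => ∀ x ∈ D, Sat D φ (Function.update v i x)

/-- `(M, ∈)` is an elementary submodel of `(D, ∈)`. -/
def Elem (M D : Set ZFSet.{u}) : Prop :=
  M.Nonempty ∧ M ⊆ D ∧ ∀ (φ : Fml) (v : ℕ → ZFSet.{u}), (∀ i, v i ∈ M) → (Sat M φ v ↔ Sat D φ v)

/-- `M` is `κ⁺`-guessing: for `z ∈ M` and `d ⊆ z`, if `d ∩ a ∈ M` for all `a ∈ M` of size
`≤ κ`, then `e ∩ M = d ∩ M` for some `e ∈ M`. -/
def Guessing (κ : Cardinal.{u}) (M : Set ZFSet.{u}) : Prop :=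
  ∀ z ∈ M, ∀ d : ZFSet.{u}, d ⊆ z → (∀ a ∈ M, a.card ≤ κ → d ∩ a ∈ M) →
    ∃ e ∈ M, ∀ y ∈ M, (y ∈ e ↔ y ∈ d)

/-- Every function from an ordinal `α < κ` into `M` belongs to `M`. -/
def SeqClosed (κ : Cardinal.{u}) (M : Set ZFSet.{u}) : Prop :=
  ∀ α : Ordinal.{u}, α < κ.ord → ∀ y f : ZFSet.{u}, (∀ w ∈ y, w ∈ M) →
    ZFSet.IsFunc α.toZFSet y f → f ∈ M

/-- `C` is a closed unbounded subset of `𝒫_l(A)`, the subsets of `A` of size `< l`. -/
def IsClub (l : Cardinal.{u}) (A : Set ZFSet.{u}) (C : Set (Set ZFSet.{u})) : Prop :=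
  (∀ x ∈ C, x ⊆ A ∧ #x < lift.{u + 1} l) ∧
  (∀ x ⊆ A, #x < lift.{u + 1} l → ∃ y ∈ C, x ⊆ y) ∧
  (∀ D ⊆ C, D.Nonempty → IsChain (· ⊆ ·) D → #D < lift.{u + 1} l → ⋃₀ D ∈ C)

/-- `S` is stationary in `𝒫_l(A)`. -/
def IsStat (l : Cardinal.{u}) (A : Set ZFSet.{u}) (S : Set (Set ZFSet.{u})) : Prop :=
  ∀ C, IsClub l A C → ∃ M ∈ S, M ∈ C

/-- The guessing model principle at `κ⁺⁺`. -/
def GMP (κ : Cardinal.{u}) : Prop :=
  ∀ θ : Cardinal.{u}, θ.IsRegular → succ (succ κ) ≤ θ →
    IsStat (succ (succ κ)) (H θ)
      {M | Elem M (H θ) ∧ #M = lift.{u + 1} (succ κ) ∧ Guessing κ M ∧ SeqClosed κ M}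

/-- `P` is `κ⁺`-centered: a union of `κ` many directed pieces. -/
def Centered (κ : Cardinal.{u}) (P : Type u) [Preorder P] : Prop :=
  ∃ Q : κ.ord.ToType → Set P, (∀ p, ∃ i, p ∈ Q i) ∧
    ∀ i, ∀ p ∈ Q i, ∀ q ∈ Q i, ∃ r ∈ Q i, r ≤ p ∧ r ≤ q

section

variable {P : Type u} [Preorder P] {X O : Type u} [LinearOrder O]

/-- `x < y`, `x = y` or `y < x` in the order named by `lt`. -/
def Comparable (lt : X → X → Set P) (x y : X) : Set P :=
  fnot (fand (fnot (meets (lt x y))) (fand (fnot (fground (x = y))) (fnot (meets (lt y x)))))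

/-- The names `lt` and `ht` give a tree of height `O` whose levels are smaller than `O`. The
nodes are the elements of `X` which have a height; `ht x a` says that `x` is a node of height `a`.
Heights are unique; the order `lt` lives on the nodes and increases heights; it is transitive;
the predecessors of a node are pairwise comparable and have all the smaller heights; every level
is nonempty; every level is contained in the range of a function defined on a proper initial
segment of `O`. -/
def IsTree (lt : X → X → Set P) (ht : X → O → Set P) : Set P :=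
  fand (fall fun x => fall fun a => fall fun b =>
      fimp (fand (meets (ht x a)) (meets (ht x b))) (fground (a = b)))
  (fand (fall fun x => fall fun y => fimp (meets (lt x y))
      (fex fun a => fex fun b => fand (fground (a < b)) (fand (meets (ht x a)) (meets (ht y b)))))
  (fand (fall fun x => fall fun y => fall fun z =>
      fimp (fand (meets (lt x y)) (meets (lt y z))) (meets (lt x z)))
  (fand (fall fun x => fall fun y => fall fun z =>
      fimp (fand (meets (lt x z)) (meets (lt y z))) (Comparable lt x y))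
  (fand (fall fun y => fall fun b => fall fun a => fall fun _ : a < b =>
      fimp (meets (ht y b)) (fex fun x => fand (meets (lt x y)) (meets (ht x a))))
  (fand (fall fun a => fex fun x => meets (ht x a))
    (fall fun a => fex fun b : O => fex fun f : Set.Iio b → X → Set P =>
      fand (IsFun f) (fall fun x => fimp (meets (ht x a)) (fex fun i => meets (f i x)))))))))

/-- The set named by `B` is a cofinal branch: a chain which meets every level. -/
def IsCofinalBranch (lt : X → X → Set P) (ht : X → O → Set P) (B : X → Set P) : Set P :=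
  fand (fall fun x => fall fun y => fimp (fand (meets (B x)) (meets (B y))) (Comparable lt x y))
    (fall fun a => fex fun x => fand (meets (B x)) (meets (ht x a)))

end

/-- The ground model cardinal `l` is still a cardinal in the extension: no function maps a
proper initial segment of `l` onto `l`. -/
def StaysCardinal (P : Type u) [Preorder P] (l : Cardinal.{u}) : Set P :=
  fall fun b : l.ord.ToType =>
    fnot (fex fun R : Set.Iio b → l.ord.ToType → Set P => fand (IsFun R) (IsOnto R))

/-- In the extension, every `l`-tree (on any ground model set of nodes) has a cofinal branch. -/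
def TreeProp (P : Type u) [Preorder P] (l : Cardinal.{u}) : Set P :=
  fall fun X : Type u => fall fun lt : X → X → Set P => fall fun ht : X → l.ord.ToType → Set P =>
    fimp (IsTree lt ht) (fex fun B : X → Set P => IsCofinalBranch lt ht B)

end Pool.Agent.H600Z.GM
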