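import Pool.Agent.H600Z.GM.Key

/-!
# The forcing argument, for an abstract forcing relation
-/

namespace Pool.Agent.H600Z.GM

open Cardinal Order

universe u

theorem branch_abstract {κ : Cardinal.{u}} (hκ : ℵ₀ ≤ κ) (hG : GMP κ) {P : Type u} [Preorder P]
    (Q : κ.ord.ToType → Set P) (hQ1 : ∀ p, ∃ i, p ∈ Q i)
    (hQ2 : ∀ i, ∀ p ∈ Q i, ∀ q ∈ Q i, ∃ r ∈ Q i, r ≤ p ∧ r ≤ q) {X : Type u}
    (L : P → X → X → Prop) (Hh : P → X → (succ (succ κ)).ord.ToType → Prop) (p₀ : P)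
    (hLd : ∀ p q x y, q ≤ p → L p x y → L q x y)
    (hHd : ∀ p q x a, q ≤ p → Hh p x a → Hh q x a)
    (hLr : ∀ p x y, (∀ q ≤ p, ∃ r ≤ q, L r x y) → L p x y)
    (ha : ∀ p ≤ p₀, ∀ x a b, Hh p x a → Hh p x b → a = b)
    (hb : ∀ p ≤ p₀, ∀ x y, L p x y → ∃ r ≤ p, ∃ a b, a < b ∧ Hh r x a ∧ Hh r y b)
    (hc : ∀ p ≤ p₀, ∀ x y z, L p x y → L p y z → L p x z)
    (hd : ∀ p ≤ p₀, ∀ x y z, L p x z → L p y z → ∃ r ≤ p, L r x y ∨ x = y ∨ L r y x)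
    (he : ∀ p ≤ p₀, ∀ y a b, a < b → Hh p y b → ∃ r ≤ p, ∃ x, L r x y ∧ Hh r x a)
    (hf : ∀ p ≤ p₀, ∀ a, ∃ r ≤ p, ∃ x, Hh r x a)
    (hg : ∀ a, #{x | ∃ p ≤ p₀, Hh p x a} ≤ succ κ) :
    ∃ r ≤ p₀, ∃ B : X → Set P, (∀ x, ∀ s ∈ B x, ∀ s' ≤ s, s' ∈ B x) ∧
      (∀ s ≤ r, ∀ x y, s ∈ B x → s ∈ B y → ∃ s' ≤ s, L s' x y ∨ x = y ∨ L s' y x) ∧
      (∀ s ≤ r, ∀ a, ∃ s' ≤ s, ∃ x, s' ∈ B x ∧ Hh s' x a) := by
  classical
  have hκ1 : ℵ₀ ≤ succ κ := hκ.trans (le_succ κ)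
  have hκ2 : ℵ₀ ≤ succ (succ κ) := hκ1.trans (le_succ _)
  have hlt : ∀ p ≤ p₀, ∀ x y a b, Hh p x a → Hh p y b → L p x y → a < b := by
    intro p hp x y a b h1 h2 h3
    obtain ⟨r, hr, a', b', hab, h4, h5⟩ := hb p hp x y h3
    rw [ha r (hr.trans hp) x a a' (hHd _ _ _ _ hr h1) h4,
      ha r (hr.trans hp) y b b' (hHd _ _ _ _ hr h2) h5]
    exact hab
  have hlin : ∀ p ≤ p₀, ∀ x y t a b, Hh p x a → Hh p y b → L p x t → L p y t → a < b →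
      L p x y := by
    intro p hp x y t a b h1 h2 h3 h4 hab
    refine hLr p x y fun q hq => ?_
    obtain ⟨r, hr, h | h | h⟩ := hd q (hq.trans hp) x y t (hLd _ _ _ _ hq h3) (hLd _ _ _ _ hq h4)
    · exact ⟨r, hr, h⟩
    · subst h
      exact absurd (ha p hp x a b h1 h2) hab.ne
    · exact absurd (hlt r (hr.trans (hq.trans hp)) y x b a (hHd _ _ _ _ (hr.trans hq) h2)
        (hHd _ _ _ _ (hr.trans hq) h1) h) (not_lt.2 hab.le)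
  have huniq : ∀ p ≤ p₀, ∀ x y t a, Hh p x a → Hh p y a → L p x t → L p y t → x = y := by
    intro p hp x y t a h1 h2 h3 h4
    obtain ⟨r, hr, h | h | h⟩ := hd p hp x y t h3 h4
    · exact absurd (hlt r (hr.trans hp) x y a a (hHd _ _ _ _ hr h1) (hHd _ _ _ _ hr h2) h)
        (lt_irrefl _)
    · exact h
    · exact absurd (hlt r (hr.trans hp) y x a a (hHd _ _ _ _ hr h2) (hHd _ _ _ _ hr h1) h)
        (lt_irrefl _)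
  let N : Type u := {n : X × (succ (succ κ)).ord.ToType // ∃ p ≤ p₀, Hh p n.1 n.2}
  let lev : N → (succ (succ κ)).ord.ToType := fun n => n.1.2
  let R : κ.ord.ToType → N → N → Prop := fun i n m =>
    ∃ p ∈ Q i, p ≤ p₀ ∧ Hh p n.1.1 n.1.2 ∧ Hh p m.1.1 m.1.2 ∧ L p n.1.1 m.1.1
  let Good : Set N → (succ (succ κ)).ord.ToType → (succ (succ κ)).ord.ToType → P → X → Prop :=
    fun U α β p x => p ≤ p₀ ∧ Hh p x β ∧ ∀ n : N, α ≤ n.1.2 → ∀ r ≤ p, Hh r n.1.1 n.1.2 →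
      (L r n.1.1 x ∨ n.1.1 = x) → n ∈ U
  let Ψ : Set N → (succ (succ κ)).ord.ToType → (succ (succ κ)).ord.ToType → Prop :=
    fun U γ β => ∀ n ∈ U, ∀ m ∈ U, n.1.2 = β → m.1.2 = β → ∀ s ≤ p₀, ∀ w,
      Hh s n.1.1 β → Hh s m.1.1 β → Hh s w γ → L s w n.1.1 → L s w m.1.1 →
      ∀ v, L s v n.1.1 → L s v m.1.1
  have hW1 : ∀ U α, ∃ β, (∃ β', α ≤ β' ∧ ¬ ∃ p x, Good U α β' p x) →
      α ≤ β ∧ ¬ ∃ p x, Good U α β p x := by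
    intro U α
    by_cases h : ∃ β', α ≤ β' ∧ ¬ ∃ p x, Good U α β' p x
    · obtain ⟨β, hβ⟩ := h
      exact ⟨β, fun _ => hβ⟩
    · exact ⟨α, fun h' => absurd h' h⟩
  have hW2 : ∀ U γ, ∃ g, (∃ g', ∀ β, γ < β → Ψ U γ β → β < g') →
      ∀ β, γ < β → Ψ U γ β → β < g := by
    intro U γ
    by_cases h : ∃ g', ∀ β, γ < β → Ψ U γ β → β < g'
    · obtain ⟨g, hg⟩ := h
      exact ⟨g, fun _ => hg⟩
    · exact ⟨γ, fun h' => absurd h' h⟩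
  choose W1 hW1 using hW1
  choose W2 hW2 using hW2
  obtain ⟨δ, hcf, hkey⟩ := key hκ hG lev
    (by
      intro a
      obtain ⟨r, hr, x, hx⟩ := hf p₀ le_rfl a
      exact ⟨⟨(x, a), r, hr, hx⟩, rfl⟩)
    (by
      intro a
      refine le_trans ?_ (hg a)
      refine mk_le_of_injective (f := fun n : {n : N | lev n = a} =>
        (⟨n.1.1.1, by
          obtain ⟨p, hp, h⟩ := n.1.2
          have h2 : n.1.1.2 = a := n.2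
          rw [h2] at h
          exact ⟨p, hp, h⟩⟩ : {x | ∃ p ≤ p₀, Hh p x a})) ?_
      intro n m h
      simp only [Subtype.mk.injEq] at h
      exact Subtype.ext (Subtype.ext (Prod.ext h
        ((show n.1.1.2 = a from n.2).trans (show m.1.1.2 = a from m.2).symm))))
    R
    (by
      rintro i x y t ⟨p, hpi, hp, h1, _, h3⟩ ⟨q, hqi, _, _, h5, h6⟩
      obtain ⟨r, hri, hrp, hrq⟩ := hQ2 i p hpi q hqi
      exact ⟨r, hri, hrp.trans hp, hHd _ _ _ _ hrp h1, hHd _ _ _ _ hrq h5,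
        hc r (hrp.trans hp) _ _ _ (hLd _ _ _ _ hrp h3) (hLd _ _ _ _ hrq h6)⟩)
    (by
      rintro i x y ⟨p, _, hp, h1, h2, h3⟩
      exact hlt p hp _ _ _ _ h1 h2 h3)
    (by
      rintro i x y t ⟨p, hpi, hp, h1, _, h3⟩ ⟨q, hqi, _, h4, _, h6⟩ hl
      obtain ⟨r, hri, hrp, hrq⟩ := hQ2 i p hpi q hqi
      exact ⟨r, hri, hrp.trans hp, hHd _ _ _ _ hrp h1, hHd _ _ _ _ hrq h4,
        hlin r (hrp.trans hp) _ _ _ _ _ (hHd _ _ _ _ hrp h1) (hHd _ _ _ _ hrq h4)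
          (hLd _ _ _ _ hrp h3) (hLd _ _ _ _ hrq h6) hl⟩)
    (by
      rintro i x y t ⟨p, hpi, hp, h1, _, h3⟩ ⟨q, hqi, _, h4, _, h6⟩ hl
      obtain ⟨r, _, hrp, hrq⟩ := hQ2 i p hpi q hqi
      have hl' : x.1.2 = y.1.2 := hl
      refine Subtype.ext (Prod.ext ?_ hl')
      exact huniq r (hrp.trans hp) _ _ _ _ (hHd _ _ _ _ hrp h1) (hl' ▸ hHd _ _ _ _ hrq h4)
        (hLd _ _ _ _ hrp h3) (hLd _ _ _ _ hrq h6))
    (fun U α => max (W1 U α) (W2 U α))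
  obtain ⟨q, hq, x₀, hx₀⟩ := hf p₀ le_rfl δ
  obtain ⟨U, hU, α₀, hα₀, hW, hcov⟩ := hkey ⟨(x₀, δ), q, hq, hx₀⟩ rfl
  -- Step 1
  have hgood : ∀ β, α₀ ≤ β → ∃ p x, Good U α₀ β p x := by
    by_contra hno
    push Not at hno
    obtain ⟨β', h1, h2⟩ := hno
    obtain ⟨h3, h4⟩ := hW1 U α₀ ⟨β', h1, by push Not; exact h2⟩
    have h5 : W1 U α₀ < δ := (le_max_left _ _).trans_lt (hW α₀ hα₀)
    obtain ⟨r, hr, y, hy1, hy2⟩ := he q hq x₀ _ δ h5 hx₀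
    refine h4 ⟨r, y, hr.trans hq, hy2, fun n hn s hs hns hL => ?_⟩
    obtain ⟨i, hi⟩ := hQ1 s
    have hs0 : s ≤ p₀ := hs.trans (hr.trans hq)
    refine hcov i n ⟨s, hi, hs0, hns, hHd _ _ _ _ (hs.trans hr) hx₀, ?_⟩ hn
    rcases hL with hL | hL
    · exact hc s hs0 _ _ _ hL (hLd _ _ _ _ hs hy1)
    · rw [hL]; exact hLd _ _ _ _ hs hy1
  -- Step 2
  have hsplit : ∃ γ, α₀ ≤ γ ∧ γ < δ ∧ Ψ U γ δ := by
    let Bad : N → N → P → (succ (succ κ)).ord.ToType → Prop := fun n m s η =>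
      η < δ ∧ ∃ v v', v ≠ v' ∧ Hh s v η ∧ Hh s v' η ∧ L s v n.1.1 ∧ L s v' m.1.1
    have hch : ∀ (j : {n | n ∈ U ∧ lev n = δ} × {n | n ∈ U ∧ lev n = δ} × κ.ord.ToType),
        ∃ η < δ, (∃ s ∈ Q j.2.2, ∃ η', Bad j.1 j.2.1 s η') → ∃ s ∈ Q j.2.2, Bad j.1 j.2.1 s η := by
      intro j
      by_cases h : ∃ s ∈ Q j.2.2, ∃ η', Bad j.1 j.2.1 s η'
      · obtain ⟨s, hs, η, hη⟩ := h
        exact ⟨η, hη.1, fun _ => ⟨s, hs, hη⟩⟩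
      · exact ⟨α₀, hα₀, fun h' => absurd h' h⟩
    choose η hη hη' using hch
    obtain ⟨γ, hγ, hγ'⟩ := hcf (insert α₀ (Set.range η))
      (by
        refine mk_insert_le.trans (add_le_of_le hκ (mk_range_le.trans ?_) (one_le_aleph0.trans hκ))
        simp only [mk_prod, lift_id, mk_ord_toType]
        refine (mul_le_mul' (hU δ) (mul_le_mul' (hU δ) le_rfl)).trans ?_
        rw [mul_eq_self hκ, mul_eq_self hκ])
      (by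
        rintro a (rfl | ⟨j, rfl⟩)
        · exact hα₀
        · exact hη j)
    refine ⟨γ, hγ' _ (Set.mem_insert _ _), hγ, ?_⟩
    intro n hn m hm hnδ hmδ s hs w hsn hsm hsw hwn hwm v hv
    refine hLr s v _ fun q' hq' => ?_
    obtain ⟨r, hr, a, b, hab, hva, hnb⟩ := hb q' (hq'.trans hs) v _ (hLd _ _ _ _ hq' hv)
    have hrs : r ≤ s := hr.trans hq'
    have hbδ : b = δ := ha r (hrs.trans hs) _ _ _ hnb (hHd _ _ _ _ hrs hsn)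
    subst hbδ
    obtain ⟨r', hr', v', hv'1, hv'2⟩ := he r (hrs.trans hs) _ a b hab (hHd _ _ _ _ hrs hsm)
    by_cases hvv : v = v'
    · subst hvv
      exact ⟨r', hr'.trans hr, hv'1⟩
    exfalso
    obtain ⟨i, hi⟩ := hQ1 r'
    obtain ⟨s₁, hs₁, hlt₁, v₁, v₂, hne, h1, h2, h3, h4⟩ :=
      hη' (⟨n, hn, hnδ⟩, ⟨m, hm, hmδ⟩, i) ⟨r', hi, a, hab, v, v', hvv, hHd _ _ _ _ hr' hva, hv'2,
        hLd _ _ _ _ (hr'.trans hrs) hv, hv'1⟩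
    obtain ⟨r₂, _, hr₂, hr₂'⟩ := hQ2 i r' hi s₁ hs₁
    have hr₂s : r₂ ≤ s := hr₂.trans (hr'.trans hrs)
    have h0 : r₂ ≤ p₀ := hr₂s.trans hs
    have hle := hγ' _ (Set.mem_insert_of_mem _ ⟨(⟨n, hn, hnδ⟩, ⟨m, hm, hmδ⟩, i), rfl⟩)
    replace h1 := hHd _ _ _ _ hr₂' h1
    replace h2 := hHd _ _ _ _ hr₂' h2
    replace h3 := hLd _ _ _ _ hr₂' h3
    replace h4 := hLd _ _ _ _ hr₂' h4
    replace hsw := hHd _ _ _ _ hr₂s hsw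
    replace hwn := hLd _ _ _ _ hr₂s hwn
    replace hwm := hLd _ _ _ _ hr₂s hwm
    rcases hle.lt_or_eq with hl | hl
    · exact hne (huniq r₂ h0 _ _ w _ h1 h2 (hlin r₂ h0 _ _ _ _ _ h1 hsw h3 hwn hl)
        (hlin r₂ h0 _ _ _ _ _ h2 hsw h4 hwm hl))
    · rw [hl] at h1 h2
      exact hne ((huniq r₂ h0 _ _ _ _ h1 hsw h3 hwn).trans
        (huniq r₂ h0 _ _ _ _ h2 hsw h4 hwm).symm)
  obtain ⟨γ, hαγ, hγδ, hΨ⟩ := hsplit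
  have hunb : ∀ g, ∃ β, γ < β ∧ Ψ U γ β ∧ g ≤ β := by
    intro g
    by_contra hno
    push Not at hno
    have h1 := hW2 U γ ⟨g, hno⟩ δ hγδ hΨ
    have h2 : W2 U γ < δ := (le_max_right _ _).trans_lt (hW γ hγδ)
    exact lt_asymm h1 h2
  -- Step 3
  let Fine : X → (succ (succ κ)).ord.ToType → P → X → Prop := fun w β p x =>
    γ < β ∧ Ψ U γ β ∧ Good U α₀ β p x ∧ Hh p w γ ∧ L p w x
  have hfine : ∃ w, ∃ r ≤ p₀, ∀ s ≤ r, ∀ g, ∃ β p x, g ≤ β ∧ Fine w β p x ∧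
      ∃ s' ≤ s, s' ≤ p := by
    by_contra hno
    push Not at hno
    have hch : ∀ j : {n | n ∈ U ∧ lev n = γ} × κ.ord.ToType, ∃ g,
        (∃ s ∈ Q j.2, ∃ g', ∀ β p x, g' ≤ β → Fine j.1.1.1.1 β p x → ∀ s' ≤ s, ¬ s' ≤ p) →
        ∃ s ∈ Q j.2, ∀ β p x, g ≤ β → Fine j.1.1.1.1 β p x → ∀ s' ≤ s, ¬ s' ≤ p := by
      intro j
      by_cases h : ∃ s ∈ Q j.2, ∃ g', ∀ β p x, g' ≤ β → Fine j.1.1.1.1 β p x →
          ∀ s' ≤ s, ¬ s' ≤ p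
      · obtain ⟨s, hs, g, hg⟩ := h
        exact ⟨g, fun _ => ⟨s, hs, hg⟩⟩
      · exact ⟨γ, fun h' => absurd h' h⟩
    choose g hg' using hch
    obtain ⟨b, hb'⟩ := bdd_of_small hκ1 (Set.range g) (by
      refine mk_range_le.trans ?_
      rw [mk_prod, lift_id, lift_id, mk_ord_toType]
      refine (mul_le_mul' (hU γ) le_rfl).trans ?_
      rw [mul_eq_self hκ]
      exact le_succ κ)
    obtain ⟨β, hγβ, hΨβ, hbβ⟩ := hunb b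
    obtain ⟨p, x, hp0, hpx, hpU⟩ := hgood β (hαγ.trans hγβ.le)
    obtain ⟨p', hp', w, hw1, hw2⟩ := he p hp0 x γ β hγβ hpx
    have hwU : (⟨(w, γ), p', hp'.trans hp0, hw2⟩ : N) ∈ U :=
      hpU _ hαγ p' hp' hw2 (Or.inl hw1)
    have hF : Fine w β p' x := ⟨hγβ, hΨβ, ⟨hp'.trans hp0, hHd _ _ _ _ hp' hpx,
      fun n hn r hr => hpU n hn r (hr.trans hp')⟩, hw2, hw1⟩
    obtain ⟨s, hs, g', hs'⟩ := hno w p' (hp'.trans hp0)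
    obtain ⟨i, hi⟩ := hQ1 s
    obtain ⟨s₁, hs₁, h1⟩ := hg' (⟨_, hwU, rfl⟩, i) ⟨s, hi, g', hs'⟩
    obtain ⟨r, _, hr1, hr2⟩ := hQ2 i s hi s₁ hs₁
    exact h1 β p' x ((hb' _ ⟨_, rfl⟩).le.trans hbβ) hF r hr2 (hr1.trans hs)
  obtain ⟨w, r, hr, hfine⟩ := hfine
  -- Step 4
  have hcomp : ∀ s ≤ p₀, ∀ β p x β' p' x' y, Fine w β p x → Fine w β' p' x' → β ≤ β' →
      s ≤ p → s ≤ p' → L s y x → ∃ s' ≤ s, L s' y x' := by
    rintro s hs β p x β' p' x' y ⟨h1, h2, ⟨h3, h4, h5⟩, h6, h7⟩ ⟨_, _, ⟨h3', h4', h5'⟩, h6', h7'⟩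
      hββ hsp hsp' hy
    have hαβ : α₀ ≤ β := hαγ.trans h1.le
    have hxU : (⟨(x, β), p, h3, h4⟩ : N) ∈ U := h5 _ hαβ p le_rfl h4 (Or.inr rfl)
    rcases hββ.lt_or_eq with hl | hl
    · obtain ⟨s', hs', z, hz1, hz2⟩ := he s hs x' β β' hl (hHd _ _ _ _ hsp' h4')
      have h0 : s' ≤ p₀ := hs'.trans hs
      have hzU : (⟨(z, β), s', h0, hz2⟩ : N) ∈ U := h5' _ hαβ s' (hs'.trans hsp') hz2 (Or.inl hz1)
      have hw' : Hh s' w γ := hHd _ _ _ _ (hs'.trans hsp) h6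
      have := h2 _ hxU _ hzU rfl rfl s' h0 w (hHd _ _ _ _ (hs'.trans hsp) h4) hz2 hw'
        (hLd _ _ _ _ (hs'.trans hsp) h7)
        (hlin s' h0 _ _ x' _ _ hw' hz2 (hLd _ _ _ _ (hs'.trans hsp') h7') hz1 h1)
        y (hLd _ _ _ _ hs' hy)
      exact ⟨s', hs', hc s' h0 _ _ _ this hz1⟩
    · subst hl
      have hxU' : (⟨(x', β), p', h3', h4'⟩ : N) ∈ U := h5' _ hαβ p' le_rfl h4' (Or.inr rfl)
      exact ⟨s, le_rfl, h2 _ hxU _ hxU' rfl rfl s hs w (hHd _ _ _ _ hsp h4) (hHd _ _ _ _ hsp' h4')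
        (hHd _ _ _ _ hsp h6) (hLd _ _ _ _ hsp h7) (hLd _ _ _ _ hsp' h7') y hy⟩
  refine ⟨r, hr, fun y => {s | ∃ β p x, Fine w β p x ∧ s ≤ p ∧ L s y x}, ?_, ?_, ?_⟩
  · rintro y s ⟨β, p, x, h1, h2, h3⟩ s' hs'
    exact ⟨β, p, x, h1, hs'.trans h2, hLd _ _ _ _ hs' h3⟩
  · rintro s hs y y' ⟨β, p, x, h1, h2, h3⟩ ⟨β', p', x', h1', h2', h3'⟩
    have hs0 := hs.trans hr
    rcases le_total β β' with hl | hl
    · obtain ⟨s', hs', h⟩ := hcomp s hs0 β p x β' p' x' y h1 h1' hl h2 h2' h3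
      obtain ⟨s'', hs'', h'⟩ := hd s' (hs'.trans hs0) y y' x' h (hLd _ _ _ _ hs' h3')
      exact ⟨s'', hs''.trans hs', h'⟩
    · obtain ⟨s', hs', h⟩ := hcomp s hs0 β' p' x' β p x y' h1' h1 hl h2' h2 h3'
      obtain ⟨s'', hs'', h'⟩ := hd s' (hs'.trans hs0) y y' x (hLd _ _ _ _ hs' h3) h
      exact ⟨s'', hs''.trans hs', h'⟩
  · intro s hs a
    have : NoMaxOrder (succ (succ κ)).ord.ToType := Cardinal.noMaxOrder hκ2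
    obtain ⟨g, hag⟩ := exists_gt a
    obtain ⟨β, p, x, hgβ, hF, s', hs', hs'p⟩ := hfine s hs g
    obtain ⟨s'', hs'', y, hy1, hy2⟩ := he s' (hs'.trans (hs.trans hr)) x a β (hag.trans_le hgβ)
      (hHd _ _ _ _ hs'p hF.2.2.1.2.1)
    exact ⟨s'', hs''.trans hs', y, ⟨β, p, x, hF, hs''.trans hs'p, hy1⟩, hy2⟩

end Pool.Agent.H600Z.GM
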