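import Pool.Agent.H600Z.GM.Club

/-!
# The combinatorial consequence of the guessing model principle
-/

namespace Pool.Agent.H600Z.GM

open Cardinal Order

universe u

theorem bdd_of_small {μ : Cardinal.{u}} (hμ : ℵ₀ ≤ μ) (s : Set (succ μ).ord.ToType)
    (hs : #s ≤ μ) : ∃ b, ∀ a ∈ s, a < b := by
  by_contra h
  push Not at h
  have h1 : (Set.univ : Set (succ μ).ord.ToType) ⊆ ⋃ a : s, Set.Iic a.1 := by
    intro b _
    obtain ⟨a, ha, hb⟩ := h b
    exact Set.mem_iUnion.2 ⟨⟨a, ha⟩, hb⟩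
  have h2 := (mk_le_mk_of_subset h1).trans mk_iUnion_le_sum_mk
  have h3 : (sum fun a : s => #(Set.Iic a.1)) ≤ μ := by
    refine (sum_le_sum _ (fun _ => μ) fun a => ?_).trans ?_
    · exact lt_succ_iff.1 (mk_Iic_lt' (hμ.trans (le_succ μ)) a.1)
    · rw [sum_const']
      exact (mul_le_mul' hs le_rfl).trans (mul_eq_self hμ).le
  have h4 := h2.trans h3
  rw [mk_univ, mk_ord_toType] at h4
  exact absurd h4 (not_le.2 (lt_succ μ))

theorem exists_big (μ : Cardinal.{u + 1}) (a : ZFSet.{u}) :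
    ∃ s : Set ZFSet.{u}, s ⊆ a ∧ #s ≤ μ ∧ (s = a ∨ #s = μ) := by
  rcases le_total #(a : Set ZFSet.{u}) μ with h | h
  · exact ⟨a, subset_rfl, h, Or.inl rfl⟩
  · obtain ⟨s, hs, hc⟩ := le_mk_iff_exists_subset.1 h
    exact ⟨s, hs, hc.le, Or.inr hc⟩

theorem key {κ : Cardinal.{u}} (hκ : ℵ₀ ≤ κ) (hG : GMP κ) {N : Type u}
    (lev : N → (succ (succ κ)).ord.ToType) (hsurj : Function.Surjective lev)
    (hfib : ∀ a, #{n | lev n = a} ≤ succ κ)
    (R : κ.ord.ToType → N → N → Prop)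
    (htr : ∀ i x y t, R i x y → R i y t → R i x t)
    (hlt : ∀ i x y, R i x y → lev x < lev y)
    (hlin : ∀ i x y t, R i x t → R i y t → lev x < lev y → R i x y)
    (huniq : ∀ i x y t, R i x t → R i y t → lev x = lev y → x = y)
    (W : Set N → (succ (succ κ)).ord.ToType → (succ (succ κ)).ord.ToType) :
    ∃ δ : (succ (succ κ)).ord.ToType,
      (∀ s : Set (succ (succ κ)).ord.ToType, #s ≤ κ → (∀ a ∈ s, a < δ) →
        ∃ b < δ, ∀ a ∈ s, a ≤ b) ∧
      ∀ t, lev t = δ → ∃ U : Set N, (∀ a, #{n | n ∈ U ∧ lev n = a} ≤ κ) ∧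
        ∃ α₀ < δ, (∀ α < δ, W U α < δ) ∧ ∀ i x, R i x t → α₀ ≤ lev x → x ∈ U := by
  classical
  have hκ1 : ℵ₀ ≤ succ κ := hκ.trans (le_succ κ)
  have hκ2 : ℵ₀ ≤ succ (succ κ) := hκ1.trans (le_succ _)
  have hOne : Nonempty (succ (succ κ)).ord.ToType := by
    rw [← mk_ne_zero_iff, mk_ord_toType]
    exact (aleph0_pos.trans_le hκ2).ne'
  choose sec hsec using hsurj
  have hNne : Nonempty N := ⟨sec hOne.some⟩
  -- coding
  let c : N → ZFSet.{u} := fun n => (embeddingToCardinal n).ord.toZFSet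
  have hc : Function.Injective c := fun n m h =>
    embeddingToCardinal.injective (ord_injective (Ordinal.toZFSet_injective h))
  let dec : ZFSet.{u} → N := Function.invFun c
  have hdec : ∀ n, dec (c n) = n := Function.leftInverse_invFun hc
  let z : ZFSet.{u} := ZFSet.range c
  have hcz : ∀ n, c n ∈ z := fun n => ZFSet.mem_range_self n
  let t₀ : ZFSet.{u} := ZFSet.vonNeumann z.powerset.powerset.rank
  let θ : Cardinal.{u} := succ (max t₀.card (succ κ))
  have hθ : θ.IsRegular := isRegular_succ (hκ1.trans (le_max_right _ _))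
  have hθle : succ (succ κ) ≤ θ := succ_le_succ (le_max_right _ _)
  have hPP : z.powerset.powerset ∈ H θ := ⟨t₀, ZFSet.isTransitive_vonNeumann _,
    ZFSet.subset_vonNeumann_self _, lt_succ_iff.2 (le_max_left _ _)⟩
  have hP : z.powerset ∈ H θ := H_of_mem hPP (ZFSet.mem_powerset.2 subset_rfl)
  have hz : z ∈ H θ := H_of_mem hP (ZFSet.mem_powerset.2 subset_rfl)
  have hcH : ∀ n, c n ∈ H θ := fun n => H_of_mem hz (hcz n)
  set μ : Cardinal.{u + 1} := lift.{u + 1} (succ κ) with hμdef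
  have hμ : ℵ₀ ≤ μ := by
    rw [hμdef, ← lift_aleph0.{u + 1, u}, lift_le]; exact hκ1
  choose big hbig using exists_big μ
  have hbelow : ∀ α, #{m | lev m ≤ α} ≤ succ κ := by
    intro α
    have h1 : {m | lev m ≤ α} = ⋃ β : Set.Iic α, {m | lev m = β.1} := by
      ext m; simp
    rw [h1]
    refine mk_iUnion_le_sum_mk.trans ((sum_le_sum _ (fun _ => succ κ) fun β => hfib _).trans ?_)
    rw [sum_const']
    exact (mul_le_mul' (lt_succ_iff.1 (mk_Iic_lt' hκ2 α)) le_rfl).trans (mul_eq_self hκ1).le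
  have hpre : ∀ s : Set ZFSet.{u}, #s ≤ μ → #{n | c n ∈ s} ≤ succ κ := by
    intro s hs
    rw [← lift_le.{u + 1}]
    refine le_trans ?_ hs
    have := mk_preimage_of_injective_lift c s hc
    rwa [lift_id'.{u, u + 1}] at this
  have hubex : ∀ s : Set ZFSet.{u}, ∃ b, #s ≤ μ → ∀ n, c n ∈ s → lev n < b := by
    intro s
    by_cases hs : #s ≤ μ
    · obtain ⟨b, hb⟩ := bdd_of_small hκ1 (lev '' {n | c n ∈ s}) (mk_image_le.trans (hpre s hs))
      exact ⟨b, fun _ n hn => hb _ ⟨n, hn, rfl⟩⟩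
    · exact ⟨hOne.some, fun h => absurd h hs⟩
  choose ub hub using hubex
  let Uof : ZFSet.{u} → Set N := fun E =>
    {n | ∃ e ∈ E, c n ∈ e ∧ ∀ m, lev m = lev n → c m ∈ e → m = n}
  let apx : κ.ord.ToType → ZFSet.{u} → N → ZFSet.{u} := fun i a y =>
    a.sep fun w => ∃ x, w = c x ∧ (R i x y ∨ x = y)
  let F : ZFSet.{u} → ZFSet.{u} → Set ZFSet.{u} := fun a b =>
    {z, z.powerset, z.powerset.powerset, ran a, su κ a, a ∩ b, c (sec (ub a)),
      c (sec (W (Uof a) (lev (dec b))))} ∪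
      (big a ∪ (c '' {m | lev m ≤ lev (dec a)} ∪ Set.range fun i => apx i a (dec b)))
  have hF : ∀ a b, #(F a b) ≤ μ := by
    intro a b
    refine (mk_union_le _ _).trans (add_le_of_le hμ ?_ ((mk_union_le _ _).trans
      (add_le_of_le hμ (hbig a).2.1 ((mk_union_le _ _).trans (add_le_of_le hμ ?_ ?_)))))
    · exact (lt_aleph0_of_finite _).le.trans hμ
    · have := mk_image_le_lift (f := c) (s := {m | lev m ≤ lev (dec a)})
      rw [lift_id'.{u, u + 1}] at this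
      exact this.trans (lift_le.2 (hbelow _))
    · have := mk_range_le_lift (f := fun i => apx i a (dec b))
      rw [lift_id'.{u, u + 1}, mk_ord_toType] at this
      exact this.trans (lift_le.2 (le_succ κ))
  obtain ⟨M, ⟨hel, hMc, hg, hsc⟩, hMH, -, hcl⟩ :=
    hG θ hθ hθle _ (isClub_closed hκ (H θ) F hF)
  obtain ⟨a₀, ha₀⟩ := hel.1
  have hzM : z ∈ M := hcl a₀ ha₀ a₀ ha₀ _ (Or.inl (by simp)) hz
  have hPM : z.powerset ∈ M := hcl a₀ ha₀ a₀ ha₀ _ (Or.inl (by simp)) hP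
  have hPPM : z.powerset.powerset ∈ M := hcl a₀ ha₀ a₀ ha₀ _ (Or.inl (by simp)) hPP
  have hran : ∀ f ∈ M, ran f ∈ M := fun f hf =>
    hcl f hf f hf _ (Or.inl (by simp)) (H_ran (hMH hf))
  have hsu : ∀ f ∈ M, su κ f ∈ M := fun f hf =>
    hcl f hf f hf _ (Or.inl (by simp)) (H_su (hMH hf))
  have hint : ∀ a ∈ M, ∀ b ∈ M, a ∩ b ∈ M := fun a ha b hb =>
    hcl a ha b hb _ (Or.inl (by simp))
      (H_of_subset (hMH ha) fun w hw => (ZFSet.mem_inter.1 hw).1)
  have hubM : ∀ a ∈ M, c (sec (ub a)) ∈ M := fun a ha =>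
    hcl a ha a ha _ (Or.inl (by simp)) (hcH _)
  have hWM : ∀ a ∈ M, ∀ n, c n ∈ M → c (sec (W (Uof a) (lev n))) ∈ M := fun a ha n hn =>
    hcl a ha _ hn _ (Or.inl (by simp [hdec])) (hcH _)
  have hbigM : ∀ a ∈ M, big a ⊆ M := fun a ha w hw =>
    hcl a ha a ha _ (Or.inr (Or.inl hw)) (H_of_mem (hMH ha) ((hbig a).1 hw))
  have hdown : ∀ n m, c n ∈ M → lev m ≤ lev n → c m ∈ M := fun n m hn hm =>
    hcl _ hn _ hn _ (Or.inr (Or.inr (Or.inl ⟨m, by simpa [hdec] using hm, rfl⟩))) (hcH _)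
  have hapx : ∀ i, ∀ a ∈ M, ∀ y, c y ∈ M → apx i a y ∈ M := fun i a ha y hy =>
    hcl a ha _ hy _ (Or.inr (Or.inr (Or.inr ⟨i, by simp only [hdec]⟩)))
      (H_of_subset (hMH ha) ZFSet.sep_subset)
  have hsm := small_mem hsc hran
  have hsub : ∀ e ∈ M, ∀ x : ZFSet.{u}, x.card ≤ κ → (∀ y ∈ M, y ∈ e → y ∈ x) →
      ∀ y ∈ e, y ∈ M := by
    intro e he x hx hex
    rcases (hbig e).2.2 with h | h
    · intro y hy
      exact hbigM e he (by rw [h]; exact hy)
    · exfalso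
      have h1 : big e ⊆ (x : Set ZFSet.{u}) := fun w hw =>
        hex w (hbigM e he hw) ((hbig e).1 hw)
      have h2 := mk_le_mk_of_subset h1
      rw [h] at h2
      have h3 : #(x : Set ZFSet.{u}) = lift.{u + 1} x.card := ZFSet.cardinalMk_coe_sort
      rw [h3, hμdef, lift_le] at h2
      exact absurd (h2.trans hx) (not_le.2 (lt_succ κ))
  have hcov := fun z x => covering hκ hg hsm hsu hsub (z := z) (x := x)
  have hsmall : ∀ y : ZFSet.{u}, y.card ≤ κ → #(y : Set ZFSet.{u}) ≤ μ := by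
    intro y hy
    have h3 : #(y : Set ZFSet.{u}) = lift.{u + 1} y.card := ZFSet.cardinalMk_coe_sort
    rw [h3, hμdef, lift_le]
    exact hy.trans (le_succ κ)
  -- the height of the model
  have hex : ∃ b, c (sec b) ∉ M := by
    refine ⟨ub M, fun h => ?_⟩
    have := hub M hMc.le _ h
    rw [hsec] at this
    exact lt_irrefl _ this
  let δ := wellFounded_lt.min {b | c (sec b) ∉ M} hex
  have hδ : ∀ n, c n ∈ M ↔ lev n < δ := by
    intro n
    constructor
    · intro hn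
      by_contra hle
      exact wellFounded_lt.min_mem {b | c (sec b) ∉ M} hex
        (hdown n _ hn (by rw [hsec]; exact not_lt.1 hle))
    · intro hn
      have : c (sec (lev n)) ∈ M := by
        by_contra hno
        exact wellFounded_lt.not_lt_min {b | c (sec b) ∉ M} hno hn
      exact hdown _ n this (by rw [hsec])
  have hbdM : ∀ a ∈ M, a.card ≤ κ → ∃ b < δ, ∀ n, c n ∈ a → lev n ≤ b := by
    intro a ha hac
    refine ⟨ub a, ?_, fun n hn => (hub a (hsmall a hac) n hn).le⟩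
    have := (hδ _).1 (hubM a ha)
    rwa [hsec] at this
  have hcf : ∀ s : Set (succ (succ κ)).ord.ToType, #s ≤ κ → (∀ a ∈ s, a < δ) →
      ∃ b < δ, ∀ a ∈ s, a ≤ b := by
    intro s hs hsδ
    obtain ⟨y, hyM, hyc, hy⟩ := hcov z (ZFSet.range fun a : s => c (sec a.1)) hPM
      (by
        intro w hw
        obtain ⟨a, rfl⟩ := ZFSet.mem_range.1 hw
        exact hcz _)
      (by
        intro w hw
        obtain ⟨a, rfl⟩ := ZFSet.mem_range.1 hw
        rw [hδ, hsec]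
        exact hsδ _ a.2)
      ((card_range_le _).trans hs)
    obtain ⟨b, hb, hb'⟩ := hbdM y hyM hyc
    refine ⟨b, hb, fun a ha => ?_⟩
    have := hb' (sec a) (hy (ZFSet.mem_range.2 ⟨⟨a, ha⟩, rfl⟩))
    rwa [hsec] at this
  refine ⟨δ, hcf, fun t ht => ?_⟩
  let A : Set κ.ord.ToType := {i | ∀ β < δ, ∃ y, R i y t ∧ β ≤ lev y}
  have hRM : ∀ i x, R i x t → c x ∈ M := fun i x hx => (hδ x).2 (ht ▸ hlt i x t hx)
  have hguess : ∀ i : A, ∃ e ∈ M, e ⊆ z ∧ ∀ n, c n ∈ M → (c n ∈ e ↔ R i n t) := by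
    intro i
    obtain ⟨e, heM, he⟩ := hg z hzM (z.sep fun w => ∃ x, w = c x ∧ R i x t) ZFSet.sep_subset (by
      intro a ha hac
      obtain ⟨b, hb, hb'⟩ := hbdM a ha hac
      obtain ⟨y, hy, hby⟩ := i.2 b hb
      have : (z.sep fun w => ∃ x, w = c x ∧ R i x t) ∩ a = apx i a y := by
        ext w
        simp only [apx, ZFSet.mem_inter, ZFSet.mem_sep]
        constructor
        · rintro ⟨⟨_, x, rfl, hx⟩, hwa⟩
          refine ⟨hwa, x, rfl, ?_⟩
          rcases ((hb' x hwa).trans hby).lt_or_eq with h | h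
          · exact Or.inl (hlin _ _ _ _ hx hy h)
          · exact Or.inr (huniq _ _ _ _ hx hy h)
        · rintro ⟨hwa, x, rfl, hx | rfl⟩
          · exact ⟨⟨hcz x, x, rfl, htr _ _ _ _ hx hy⟩, hwa⟩
          · exact ⟨⟨hcz x, x, rfl, hy⟩, hwa⟩
      rw [this]
      exact hapx _ a ha y (hRM _ y hy))
    refine ⟨e ∩ z, hint e heM z hzM, fun w hw => (ZFSet.mem_inter.1 hw).2, fun n hn => ?_⟩
    rw [ZFSet.mem_inter, he _ hn, ZFSet.mem_sep]
    constructor
    · rintro ⟨⟨_, x, hx, hR⟩, _⟩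
      rwa [hc hx]
    · intro h
      exact ⟨⟨hcz n, n, rfl, h⟩, hcz n⟩
  choose e heM hez he using hguess
  obtain ⟨E, hEM, hEc, hE⟩ := hcov z.powerset (ZFSet.range e) hPPM
    (by
      intro w hw
      obtain ⟨i, rfl⟩ := ZFSet.mem_range.1 hw
      exact ZFSet.mem_powerset.2 (hez i))
    (by
      intro w hw
      obtain ⟨i, rfl⟩ := ZFSet.mem_range.1 hw
      exact heM i)
    ((card_range_le _).trans ((mk_set_le _).trans (by simp)))
  have hnA : ∀ i : (Aᶜ : Set κ.ord.ToType), ∃ β < δ, ∀ y, R i y t → lev y < β := by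
    intro i
    have := i.2
    simp only [A, Set.mem_compl_iff, Set.mem_ofPred_eq, not_forall, not_exists, not_and,
      not_le] at this
    obtain ⟨β, hβ, h⟩ := this
    exact ⟨β, hβ, h⟩
  choose β hβδ hβ using hnA
  obtain ⟨α₀, hα₀, hα₀'⟩ := hcf (Set.range β)
    (mk_range_le.trans ((mk_set_le _).trans (by simp)))
    (by rintro _ ⟨i, rfl⟩; exact hβδ i)
  refine ⟨Uof E, fun a => ?_, α₀, hα₀, fun α hα => ?_, fun i x hx hle => ?_⟩
  · have hch : ∀ n : {n | n ∈ Uof E ∧ lev n = a}, ∃ e : E, c n ∈ e.1 ∧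
        ∀ m, lev m = lev n → c m ∈ e.1 → m = n := by
      rintro ⟨n, ⟨e, he, h⟩, _⟩
      exact ⟨⟨e, he⟩, h⟩
    choose g hg1 hg2 using hch
    have hinj : Function.Injective g := by
      intro n m h
      exact Subtype.ext (hg2 m n (n.2.2.trans m.2.2.symm) (h ▸ hg1 n))
    have := lift_mk_le_lift_mk_of_injective hinj
    rw [lift_id'.{u, u + 1}, ZFSet.cardinalMk_coe_sort, lift_le] at this
    exact this.trans hEc
  · have := (hδ _).1 (hWM E hEM (sec α) ((hδ _).2 (by rwa [hsec])))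
    rwa [hsec, hsec] at this
  · have hiA : i ∈ A := by
      by_contra hi
      exact absurd ((hβ ⟨i, hi⟩ x hx).trans_le (hα₀' _ ⟨⟨i, hi⟩, rfl⟩)) (not_lt.2 hle)
    refine ⟨e ⟨i, hiA⟩, hE (ZFSet.mem_range_self _), (he ⟨i, hiA⟩ x (hRM i x hx)).2 hx,
      fun m hm hme => ?_⟩
    exact huniq i m x t ((he ⟨i, hiA⟩ m (hdown x m (hRM i x hx) hm.le)).1 hme) hx hm

end Pool.Agent.H600Z.GM
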