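import Pool.Agent.H600Z.GM.Force

/-!
# Centered forcing preserves the tree property under the guessing model principle
-/

namespace Pool.Agent.H600Z.GM

open Cardinal Order Pool.Agent.Helper292.ForceCH

universe u

section

variable {P : Type u} [Preorder P]

theorem mem_comparable {X : Type u} {lt : X → X → Set P} {x y : X} {p : P} :
    p ∈ Comparable lt x y ↔
      ∀ q ≤ p, ∃ r ≤ q, r ∈ meets (lt x y) ∨ x = y ∨ r ∈ meets (lt y x) := by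
  simp only [Comparable, fnot, fand, fground, Set.mem_ofPred_eq]
  constructor
  · intro h q hq
    by_contra hno
    push Not at hno
    exact h q hq ⟨fun r hr => (hno r hr).1, fun r hr => (hno r hr).2.1, fun r hr => (hno r hr).2.2⟩
  · rintro h q hq ⟨h1, h2, h3⟩
    obtain ⟨r, hr, h4 | h4 | h4⟩ := h q hq
    · exact h1 r hr h4
    · exact h2 r hr h4
    · exact h3 r hr h4

theorem values_le {κ : Cardinal.{u}} {Q : κ.ord.ToType → Set P} (hQ1 : ∀ p, ∃ i, p ∈ Q i)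
    (hQ2 : ∀ i, ∀ p ∈ Q i, ∀ q ∈ Q i, ∃ r ∈ Q i, r ≤ p ∧ r ≤ q) {I Y : Type u}
    {f : I → Y → Set P} {r : P} (hr : r ∈ IsFun f) (ξ : I) :
    #{y | ∃ s ≤ r, s ∈ meets (f ξ y)} ≤ κ := by
  have hch : ∀ y : {y | ∃ s ≤ r, s ∈ meets (f ξ y)}, ∃ i, ∃ s ∈ Q i, s ≤ r ∧ s ∈ meets (f ξ y) := by
    rintro ⟨y, s, hs, h⟩
    obtain ⟨i, hi⟩ := hQ1 s
    exact ⟨i, s, hi, hs, h⟩
  choose g hg using hch
  have hinj : Function.Injective g := by
    intro y y' h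
    obtain ⟨s, hs, h1, h2⟩ := hg y
    obtain ⟨s', hs', _, h4⟩ := hg y'
    obtain ⟨t, _, ht, ht'⟩ := hQ2 _ s hs s' (h ▸ hs')
    obtain ⟨_, _, h5⟩ := mem_fimp.1 (hr.2 ξ y.1 y'.1) t (ht.trans h1)
      ⟨down_meets _ _ h2 _ ht, down_meets _ _ h4 _ ht'⟩
    exact Subtype.ext h5
  simpa using mk_le_of_injective hinj

theorem all_values_le {κ μ : Cardinal.{u}} (hμ : ℵ₀ ≤ μ) (hκμ : κ ≤ μ)
    {Q : κ.ord.ToType → Set P} (hQ1 : ∀ p, ∃ i, p ∈ Q i)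
    (hQ2 : ∀ i, ∀ p ∈ Q i, ∀ q ∈ Q i, ∃ r ∈ Q i, r ≤ p ∧ r ≤ q) {I Y : Type u} (hI : #I ≤ μ)
    {f : I → Y → Set P} {r : P} (hr : r ∈ IsFun f) :
    #{y | ∃ ξ, ∃ s ≤ r, s ∈ meets (f ξ y)} ≤ μ := by
  rw [Set.ofPred_exists]
  refine mk_iUnion_le_sum_mk.trans ((sum_le_sum _ (fun _ => μ)
    fun ξ => (values_le hQ1 hQ2 hr ξ).trans hκμ).trans ?_)
  rw [sum_const']
  exact (mul_le_mul' hI le_rfl).trans (mul_eq_self hμ).le

theorem staysCardinal {κ μ : Cardinal.{u}} (hμ : ℵ₀ ≤ μ) (hκμ : κ ≤ μ) (hP : Centered κ P)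
    (p : P) : p ∈ StaysCardinal P (succ μ) := by
  obtain ⟨Q, hQ1, hQ2⟩ := hP
  intro b q _ hq
  obtain ⟨r, _, R, h1, h2⟩ := mem_fex.1 hq q le_rfl
  have h3 := all_values_le hμ hκμ hQ1 hQ2 (lt_succ_iff.1 (mk_Iio_lt' b)) h1
  have h4 : {y | ∃ ξ, ∃ s ≤ r, s ∈ meets (R ξ y)} = Set.univ := by
    refine Set.eq_univ_of_forall fun y => ?_
    obtain ⟨s, hs, ξ, h⟩ := mem_fex.1 (h2 y) r le_rfl
    exact ⟨ξ, s, hs, h⟩
  rw [h4, mk_univ, mk_ord_toType] at h3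
  exact absurd h3 (not_le.2 (lt_succ μ))

theorem treeProp {κ : Cardinal.{u}} (hκ : ℵ₀ ≤ κ) (hG : GMP κ) (hP : Centered κ P) (p : P) :
    p ∈ TreeProp P (succ (succ κ)) := by
  classical
  obtain ⟨Q, hQ1, hQ2⟩ := hP
  have hκ1 : ℵ₀ ≤ succ κ := hκ.trans (le_succ κ)
  intro X lt ht
  refine mem_fimp.2 fun p₀ _ hT => ?_
  obtain ⟨h1, h2, h3, h4, h5, h6, h7⟩ := hT
  obtain ⟨r, hr, B, hB1, hB2, hB3⟩ := branch_abstract hκ hG Q hQ1 hQ2
    (fun p x y => p ∈ meets (lt x y)) (fun p x a => p ∈ meets (ht x a)) p₀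
    (fun p q x y hq h => down_meets _ _ h _ hq) (fun p q x y hq h => down_meets _ _ h _ hq)
    (fun p x y h => meets_of_dense h)
    (fun p hp x a b ha hb => by
      obtain ⟨_, _, h⟩ := mem_fimp.1 (h1 x a b) p hp ⟨ha, hb⟩
      exact h)
    (fun p hp x y h => by
      obtain ⟨r, hr, h'⟩ := mem_fimp.1 (h2 x y) p hp h
      obtain ⟨s, hs, a, h''⟩ := mem_fex.1 h' r le_rfl
      obtain ⟨t, ht, b, h'''⟩ := mem_fex.1 h'' s le_rfl
      exact ⟨t, ht.trans (hs.trans hr), a, b, h'''.1, h'''.2.1, h'''.2.2⟩)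
    (fun p hp x y z h h' => meets_of_dense fun q hq =>
      mem_fimp.1 (h3 x y z) q (hq.trans hp) ⟨down_meets _ _ h _ hq, down_meets _ _ h' _ hq⟩)
    (fun p hp x y z h h' => by
      obtain ⟨r, hr, h''⟩ := mem_fimp.1 (h4 x y z) p hp ⟨h, h'⟩
      obtain ⟨s, hs, h'''⟩ := mem_comparable.1 h'' r le_rfl
      exact ⟨s, hs.trans hr, h'''⟩)
    (fun p hp y a b hab h => by
      obtain ⟨r, hr, h'⟩ := mem_fimp.1 (h5 y b a hab) p hp h
      obtain ⟨s, hs, x, h''⟩ := mem_fex.1 h' r le_rfl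
      exact ⟨s, hs.trans hr, x, h''.1, h''.2⟩)
    (fun p hp a => mem_fex.1 (h6 a) p hp)
    (fun a => by
      let D : P → (b : (succ (succ κ)).ord.ToType) → (Set.Iio b → X → Set P) → Prop :=
        fun r b f => r ∈ fand (IsFun f)
          (fall fun x => fimp (meets (ht x a)) (fex fun i => meets (f i x)))
      have hch : ∀ i, ∃ V : Set X, #V ≤ succ κ ∧ ((∃ r ∈ Q i, ∃ b f, D r b f) →
          ∃ r ∈ Q i, ∃ b f, D r b f ∧ V = {y | ∃ ξ, ∃ s ≤ r, s ∈ meets (f ξ y)}) := by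
        intro i
        by_cases h : ∃ r ∈ Q i, ∃ b f, D r b f
        · obtain ⟨r, hr, b, f, hD⟩ := h
          exact ⟨_, all_values_le hκ1 (le_succ κ) hQ1 hQ2 (lt_succ_iff.1 (mk_Iio_lt' b)) hD.1,
            fun _ => ⟨r, hr, b, f, hD, rfl⟩⟩
        · exact ⟨∅, by simp, fun h' => absurd h' h⟩
      choose V hV hV' using hch
      have hsub : {x | ∃ p ≤ p₀, p ∈ meets (ht x a)} ⊆ ⋃ i, V i := by
        rintro x ⟨p, hp, hx⟩
        obtain ⟨r, hr, b, h'⟩ := mem_fex.1 (h7 a) p hp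
        obtain ⟨s, hs, f, h''⟩ := mem_fex.1 h' r le_rfl
        obtain ⟨i, hi⟩ := hQ1 s
        obtain ⟨r', hr', b', f', hD, hVi⟩ := hV' i ⟨s, hi, b, f, h''⟩
        obtain ⟨t, _, ht1, ht2⟩ := hQ2 i s hi r' hr'
        obtain ⟨t', ht', h8⟩ := mem_fimp.1 (hD.2 x) t ht2
          (down_meets _ _ hx _ (ht1.trans (hs.trans hr)))
        obtain ⟨t'', ht'', ξ, h9⟩ := mem_fex.1 h8 t' le_rfl
        refine Set.mem_iUnion.2 ⟨i, ?_⟩
        rw [hVi]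
        exact ⟨ξ, t'', ht''.trans (ht'.trans ht2), h9⟩
      refine (mk_le_mk_of_subset hsub).trans (mk_iUnion_le_sum_mk.trans
        ((sum_le_sum _ (fun _ => succ κ) hV).trans ?_))
      rw [sum_const', mk_ord_toType]
      exact (mul_le_mul' (le_succ κ) le_rfl).trans (mul_eq_self hκ1).le)
  have hmeets : ∀ x s, s ∈ B x → s ∈ meets (B x) := fun x s hs q hq => ⟨q, le_rfl, s, hs, hq⟩
  refine ⟨r, hr, mem_fex.2 fun q hq => ⟨q, le_rfl, B, fun x y => ?_, fun a => ?_⟩⟩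
  · refine fimp_of fun s hs h => mem_comparable.2 fun s₁ hs₁ => ?_
    obtain ⟨s₂, hs₂, t, ht, hst⟩ := h.1 s₁ hs₁
    obtain ⟨s₃, hs₃, t', ht', hst'⟩ := h.2 s₂ (hs₂.trans hs₁)
    obtain ⟨s₄, hs₄, h'⟩ := hB2 s₃ (hs₃.trans (hs₂.trans (hs₁.trans (hs.trans hq)))) x y
      (hB1 x t ht _ (hs₃.trans hst)) (hB1 y t' ht' _ hst')
    exact ⟨s₄, hs₄.trans (hs₃.trans hs₂), h'⟩
  · refine mem_fex.2 fun s hs => ?_
    obtain ⟨s', hs', x, h, h'⟩ := hB3 s (hs.trans hq) a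
    exact ⟨s', hs', x, hmeets x s' h, h'⟩

end

end Pool.Agent.H600Z.GM
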